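import Pool.Agent.R352.TowersDefs

/-!
# Exponential-logarithmic towers: every element of `EL^(c)` is an analytic function of the base `c`

`Cov A`: there are countably many functions such that for every base `c` every element of `A c` is the value at `c`
of one of the functions which is analytic at `c`.
-/

set_option autoImplicit false

open Filter Topology

namespace Pool.Agent.R352.Towers

/-- countably many analytic functions cover the elements of `A c` for all bases `c` -/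
def Cov (A : ℂ → Set ℂ) : Prop :=
  ∃ F : Set (ℂ → ℂ), F.Countable ∧ ∀ c : ℂ, c ≠ 0 → c ≠ 1 → ∀ x ∈ A c, ∃ f ∈ F, AnalyticAt ℂ f c ∧ f c = x

lemma Cov.mono {A B : ℂ → Set ℂ} (h : Cov B) (hAB : ∀ c, c ≠ 0 → c ≠ 1 → A c ⊆ B c) : Cov A := by
  obtain ⟨F, hF, h⟩ := h
  exact ⟨F, hF, fun c h0 h1 x hx => h c h0 h1 x (hAB c h0 h1 hx)⟩

lemma Cov.union {A B : ℂ → Set ℂ} (hA : Cov A) (hB : Cov B) : Cov fun c => A c ∪ B c := by
  obtain ⟨F, hF, h⟩ := hA
  obtain ⟨G, hG, h'⟩ := hB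
  refine ⟨F ∪ G, hF.union hG, fun c h0 h1 x hx => ?_⟩
  rcases hx with hx | hx
  · obtain ⟨f, hf, h2⟩ := h c h0 h1 x hx
    exact ⟨f, Or.inl hf, h2⟩
  · obtain ⟨f, hf, h2⟩ := h' c h0 h1 x hx
    exact ⟨f, Or.inr hf, h2⟩

lemma Cov.iUnion {A : ℕ → ℂ → Set ℂ} (hA : ∀ n, Cov (A n)) : Cov fun c => ⋃ n, A n c := by
  choose F hF h using hA
  refine ⟨⋃ n, F n, Set.countable_iUnion hF, fun c h0 h1 x hx => ?_⟩
  obtain ⟨n, hn⟩ := Set.mem_iUnion.1 hx
  obtain ⟨f, hf, h2⟩ := h n c h0 h1 x hn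
  exact ⟨f, Set.mem_iUnion.2 ⟨n, hf⟩, h2⟩

lemma cov_const {S : Set ℂ} (hS : S.Countable) : Cov fun _ => S := by
  refine ⟨(fun s : ℂ => fun _ : ℂ => s) '' S, hS.image _, fun c _ _ x hx => ?_⟩
  exact ⟨_, ⟨x, hx, rfl⟩, analyticAt_const, rfl⟩

/-! ### polynomials and quotients -/

lemma countable_mvPolynomial (σ : Type) [Countable σ] : Countable (MvPolynomial σ ℤ) := by
  rw [← Cardinal.mk_le_aleph0_iff]
  refine (MvPolynomial.cardinalMk_le_max (σ := σ) (R := ℤ)).trans ?_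
  refine max_le (max_le ?_ ?_) le_rfl
  · exact Cardinal.mk_le_aleph0_iff.2 inferInstance
  · exact Cardinal.mk_le_aleph0_iff.2 inferInstance

lemma analyticAt_aeval {σ : Type} (f : σ → ℂ → ℂ) (c : ℂ) (P : MvPolynomial σ ℤ)
    (h : ∀ i ∈ P.vars, AnalyticAt ℂ (f i) c) :
    AnalyticAt ℂ (fun z => MvPolynomial.aeval (fun i => f i z) P) c := by
  have e : (fun z => MvPolynomial.aeval (fun i => f i z) P) =
      fun z => ∑ d ∈ P.support, ((P.coeff d : ℤ) : ℂ) * ∏ i ∈ d.support, f i z ^ d i := by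
    funext z
    rw [MvPolynomial.aeval_def, MvPolynomial.eval₂_eq]
    simp
  rw [e]
  apply Finset.analyticAt_fun_sum
  intro d hd
  apply AnalyticAt.mul analyticAt_const
  apply Finset.analyticAt_fun_prod
  intro i hi
  apply AnalyticAt.pow
  apply h
  rw [MvPolynomial.mem_vars]
  exact ⟨d, hd, hi⟩

lemma Cov.subring {A : ℂ → Set ℂ} (hA : Cov A) : Cov fun c => (Subring.closure (A c) : Set ℂ) := by
  obtain ⟨F, hF, h⟩ := hA
  classical
  have : Countable F := hF.to_subtype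
  have := countable_mvPolynomial F
  refine ⟨Set.range fun P : MvPolynomial F ℤ => fun z : ℂ => MvPolynomial.aeval (fun p : F => p.1 z) P,
    Set.countable_range _, fun c h0 h1 x hx => ?_⟩
  have hx' : x ∈ Algebra.adjoin ℤ (A c) := by
    have h2 : Subring.closure (A c) ≤ (Algebra.adjoin ℤ (A c)).toSubring :=
      Subring.closure_le.2 Algebra.subset_adjoin
    exact h2 hx
  rw [Algebra.adjoin_eq_range] at hx'
  obtain ⟨P, hP⟩ := hx'
  choose! p hpF hpa hpv using fun x hx => h c h0 h1 x hx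
  set ρ : A c → F := fun a => ⟨p a.1, hpF a.1 a.2⟩ with hρ
  refine ⟨_, ⟨MvPolynomial.rename ρ P, rfl⟩, ?_, ?_⟩
  · apply analyticAt_aeval
    intro i hi
    obtain ⟨a, -, ha⟩ := Finset.mem_image.1 (MvPolynomial.vars_rename ρ P hi)
    rw [← ha]
    exact hpa a.1 a.2
  · show MvPolynomial.aeval (fun q : F => q.1 c) (MvPolynomial.rename ρ P) = x
    rw [MvPolynomial.aeval_rename, ← hP]
    congr 2
    funext a
    exact hpv a.1 a.2

lemma Cov.div {A B : ℂ → Set ℂ} (hA : Cov A) (hB : Cov B) :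
    Cov fun c => {x | ∃ a ∈ A c, ∃ b ∈ B c, b ≠ 0 ∧ a / b = x} := by
  obtain ⟨F, hF, h⟩ := hA
  obtain ⟨G, hG, h'⟩ := hB
  refine ⟨(fun p : (ℂ → ℂ) × (ℂ → ℂ) => fun z => p.1 z / p.2 z) '' (F ×ˢ G), (hF.prod hG).image _,
    fun c h0 h1 x hx => ?_⟩
  obtain ⟨a, ha, b, hb, hb0, rfl⟩ := hx
  obtain ⟨f, hf, hfa, hfv⟩ := h c h0 h1 a ha
  obtain ⟨g, hg, hga, hgv⟩ := h' c h0 h1 b hb
  refine ⟨_, ⟨(f, g), ⟨hf, hg⟩, rfl⟩, ?_, ?_⟩
  · exact hfa.div hga (by show g c ≠ 0; rw [hgv]; exact hb0)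
  · show f c / g c = a / b
    rw [hfv, hgv]

lemma Cov.subfield {A : ℂ → Set ℂ} (hA : Cov A) : Cov fun c => (Subfield.closure (A c) : Set ℂ) := by
  refine ((hA.subring.div hA.subring).union (cov_const (Set.countable_singleton (0 : ℂ)))).mono
    fun c _ _ x hx => ?_
  obtain ⟨y, hy, z, hz, hyz⟩ := Subfield.mem_closure_iff.1 hx
  by_cases hz0 : z = 0
  · right
    rw [← hyz, hz0, div_zero]
    rfl
  · exact Or.inl ⟨y, hy, z, hz, hz0, hyz⟩

/-! ### algebraic closure -/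

/-- local root function -/
lemma root_local {d : ℕ} (g : Fin d → ℂ → ℂ) (c0 x0 : ℂ) (hg : ∀ i, AnalyticAt ℂ (g i) c0)
    (h0 : ∑ i, g i c0 * x0 ^ (i : ℕ) = 0) (h1 : ∑ i, g i c0 * ((i : ℕ) * x0 ^ ((i : ℕ) - 1)) ≠ 0) :
    ∃ φ : ℂ → ℂ, ∀ᶠ p : ℂ × ℂ in 𝓝 (c0, x0), (∑ i, g i p.1 * p.2 ^ (i : ℕ) = 0 → AnalyticAt ℂ φ p.1 ∧ φ p.1 = p.2) := by
  -- the map `(c, x) ↦ (c, P_c(x))`
  set Ph : ℂ × ℂ → ℂ × ℂ := fun p => (p.1, ∑ i, g i p.1 * p.2 ^ (i : ℕ)) with hPh
  have hana : AnalyticAt ℂ Ph (c0, x0) := by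
    apply AnalyticAt.prod
    · exact analyticAt_fst
    · apply Finset.analyticAt_fun_sum
      intro i _
      apply AnalyticAt.mul
      · exact AnalyticAt.comp (g := g i) (f := Prod.fst) (x := (c0, x0)) (hg i) analyticAt_fst
      · exact analyticAt_snd.pow _
  have hcd : ContDiffAt ℂ ⊤ Ph (c0, x0) := hana.contDiffAt
  -- the derivative
  set a : ℂ := ∑ i, g i c0 * ((i : ℕ) * x0 ^ ((i : ℕ) - 1)) with ha
  set b : ℂ := ∑ i, deriv (g i) c0 * x0 ^ (i : ℕ) with hb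
  have hder : HasFDerivAt Ph ((ContinuousLinearMap.fst ℂ ℂ ℂ).prod
      (b • ContinuousLinearMap.fst ℂ ℂ ℂ + a • ContinuousLinearMap.snd ℂ ℂ ℂ)) (c0, x0) := by
    apply HasFDerivAt.prodMk
    · exact hasFDerivAt_fst
    · have h2 : ∀ i, HasFDerivAt (fun p : ℂ × ℂ => g i p.1 * p.2 ^ (i : ℕ))
          ((deriv (g i) c0 * x0 ^ (i : ℕ)) • ContinuousLinearMap.fst ℂ ℂ ℂ +
            (g i c0 * ((i : ℕ) * x0 ^ ((i : ℕ) - 1))) • ContinuousLinearMap.snd ℂ ℂ ℂ) (c0, x0) := by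
        intro i
        have e1 : HasFDerivAt (fun p : ℂ × ℂ => g i p.1)
            ((deriv (g i) c0) • ContinuousLinearMap.fst ℂ ℂ ℂ) (c0, x0) := by
          have h3 : HasDerivAt (g i) (deriv (g i) c0) (Prod.fst ((c0, x0) : ℂ × ℂ)) :=
            (hg i).differentiableAt.hasDerivAt
          have h4 := h3.hasFDerivAt.comp (c0, x0) (hasFDerivAt_fst (𝕜 := ℂ) (E := ℂ) (F := ℂ))
          refine h4.congr_fderiv ?_
          ext <;> simp
        have e2 : HasFDerivAt (fun p : ℂ × ℂ => p.2 ^ (i : ℕ))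
            (((i : ℕ) * x0 ^ ((i : ℕ) - 1)) • ContinuousLinearMap.snd ℂ ℂ ℂ) (c0, x0) := by
          have h3 : HasDerivAt (fun x : ℂ => x ^ (i : ℕ)) ((i : ℕ) * x0 ^ ((i : ℕ) - 1))
              (Prod.snd ((c0, x0) : ℂ × ℂ)) := hasDerivAt_pow _ _
          have h4 := h3.hasFDerivAt.comp (c0, x0) (hasFDerivAt_snd (𝕜 := ℂ) (E := ℂ) (F := ℂ))
          refine h4.congr_fderiv ?_
          ext <;> simp
        refine (e1.mul e2).congr_fderiv ?_
        ext <;> simp <;> ring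
      have h5 := HasFDerivAt.fun_sum (u := Finset.univ) fun i _ => h2 i
      refine h5.congr_fderiv ?_
      rw [Finset.sum_add_distrib, ← Finset.sum_smul, ← Finset.sum_smul]
  have ha0 : a ≠ 0 := h1
  -- the equivalence
  set L : (ℂ × ℂ) ≃L[ℂ] (ℂ × ℂ) := ContinuousLinearEquiv.equivOfInverse
    ((ContinuousLinearMap.fst ℂ ℂ ℂ).prod
      (b • ContinuousLinearMap.fst ℂ ℂ ℂ + a • ContinuousLinearMap.snd ℂ ℂ ℂ))
    ((ContinuousLinearMap.fst ℂ ℂ ℂ).prod
      ((-(b / a)) • ContinuousLinearMap.fst ℂ ℂ ℂ + (1 / a) • ContinuousLinearMap.snd ℂ ℂ ℂ))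
    (by
      rintro ⟨u, v⟩
      simp only [ContinuousLinearMap.prod_apply, _root_.add_apply, _root_.smul_apply,
        ContinuousLinearMap.coe_fst', ContinuousLinearMap.coe_snd', smul_eq_mul, Prod.mk.injEq, true_and]
      field_simp
      ring)
    (by
      rintro ⟨u, v⟩
      simp only [ContinuousLinearMap.prod_apply, _root_.add_apply, _root_.smul_apply,
        ContinuousLinearMap.coe_fst', ContinuousLinearMap.coe_snd', smul_eq_mul, Prod.mk.injEq, true_and]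
      field_simp
      ring) with hL
  have hder' : HasFDerivAt Ph (L : (ℂ × ℂ) →L[ℂ] (ℂ × ℂ)) (c0, x0) := hder
  have hPh0 : Ph (c0, x0) = (c0, 0) := by
    simp only [hPh]
    rw [h0]
  set ψ := hcd.localInverse hder' (by simp) with hψ
  have hψc : ContDiffAt ℂ ⊤ ψ (c0, 0) := by
    have := hcd.to_localInverse hder' (by simp)
    rwa [hPh0] at this
  have hψa : ∀ᶠ q : ℂ × ℂ in 𝓝 (c0, 0), AnalyticAt ℂ ψ q := by
    have h6 : AnalyticAt ℂ ψ (c0, 0) := by
      rw [← analyticWithinAt_univ]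
      exact contDiffWithinAt_omega_iff_analyticWithinAt.1 hψc.contDiffWithinAt
    exact h6.eventually_analyticAt
  refine ⟨fun c => (ψ (c, 0)).2, ?_⟩
  have hleft : ∀ᶠ p : ℂ × ℂ in 𝓝 (c0, x0), ψ (Ph p) = p :=
    (hcd.hasStrictFDerivAt' hder' (by simp)).eventually_left_inverse
  have hcont : Tendsto (fun p : ℂ × ℂ => (p.1, (0 : ℂ))) (𝓝 (c0, x0)) (𝓝 (c0, 0)) := by
    apply Continuous.tendsto' (by fun_prop)
    rfl
  filter_upwards [hleft, hcont.eventually hψa] with p hp1 hp2 hp3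
  have e : Ph p = (p.1, 0) := by
    simp only [hPh]
    rw [hp3]
  rw [e] at hp1
  refine ⟨?_, ?_⟩
  · have h7 : AnalyticAt ℂ (fun c : ℂ => ψ (c, 0)) p.1 := by
      exact AnalyticAt.comp (g := ψ) (f := fun c : ℂ => (c, (0 : ℂ))) (x := p.1) hp2
        (analyticAt_id.prod analyticAt_const)
    exact AnalyticAt.comp (g := Prod.snd) (f := fun c : ℂ => ψ (c, 0)) (x := p.1) analyticAt_snd h7
  · show (ψ (p.1, 0)).2 = p.2
    rw [hp1]

/-- the local root functions of all the polynomials with the coefficient functions `g` -/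
lemma roots_cov {d : ℕ} (g : Fin d → ℂ → ℂ) : ∃ F : Set (ℂ → ℂ), F.Countable ∧ ∀ c x : ℂ,
    (∀ i, AnalyticAt ℂ (g i) c) → ∑ i, g i c * x ^ (i : ℕ) = 0 →
    ∑ i, g i c * ((i : ℕ) * x ^ ((i : ℕ) - 1)) ≠ 0 → ∃ f ∈ F, AnalyticAt ℂ f c ∧ f c = x := by
  classical
  set E : Set (ℂ × ℂ) := {p | (∀ i, AnalyticAt ℂ (g i) p.1) ∧ ∑ i, g i p.1 * p.2 ^ (i : ℕ) = 0 ∧
    ∑ i, g i p.1 * ((i : ℕ) * p.2 ^ ((i : ℕ) - 1)) ≠ 0} with hE
  have h : ∀ p : ℂ × ℂ, ∃ φ : ℂ → ℂ, p ∈ E → ∀ᶠ q : ℂ × ℂ in 𝓝 p,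
      (∑ i, g i q.1 * q.2 ^ (i : ℕ) = 0 → AnalyticAt ℂ φ q.1 ∧ φ q.1 = q.2) := by
    intro p
    by_cases hp : p ∈ E
    · obtain ⟨φ, hφ⟩ := root_local g p.1 p.2 hp.1 hp.2.1 hp.2.2
      exact ⟨φ, fun _ => hφ⟩
    · exact ⟨fun _ => 0, fun h => absurd h hp⟩
  choose φ hφ using h
  obtain ⟨t, htE, htc, hcov⟩ := TopologicalSpace.countable_cover_nhdsWithin (s := E)
    (f := fun p => {q : ℂ × ℂ | ∑ i, g i q.1 * q.2 ^ (i : ℕ) = 0 → AnalyticAt ℂ (φ p) q.1 ∧ φ p q.1 = q.2})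
    (fun p hp => mem_nhdsWithin_of_mem_nhds (hφ p hp))
  refine ⟨φ '' t, htc.image _, fun c x h1 h2 h3 => ?_⟩
  have hmem : (c, x) ∈ E := ⟨h1, h2, h3⟩
  obtain ⟨p, hp, hpq⟩ := Set.mem_iUnion₂.1 (hcov hmem)
  exact ⟨φ p, ⟨p, hp, rfl⟩, hpq h2⟩

lemma Cov.algebraic {K : ℂ → Subfield ℂ} (hK : Cov fun c => (K c : Set ℂ)) :
    Cov fun c => ((algebraicClosure (K c) ℂ).toSubfield : Set ℂ) := by
  classical
  obtain ⟨F, hF, h⟩ := hK
  have : Countable F := hF.to_subtype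
  choose G hG hG2 using fun (d : ℕ) (g : Fin d → F) => roots_cov fun i => (g i).1
  refine ⟨⋃ d : ℕ, ⋃ g : Fin d → F, G d g,
    Set.countable_iUnion fun d => Set.countable_iUnion fun g => hG d g, fun c h0 h1 x hx => ?_⟩
  have hx' : IsAlgebraic (K c) x := by
    have h2 : x ∈ algebraicClosure (K c) ℂ := hx
    exact (mem_algebraicClosure_iff (F := K c)).1 h2
  have hint : IsIntegral (K c) x := hx'.isIntegral
  set P := minpoly (K c) x with hP
  have hsep : P.Separable := (minpoly.irreducible hint).separable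
  have hroot : Polynomial.aeval x P = 0 := minpoly.aeval _ _
  have hder : Polynomial.aeval x (Polynomial.derivative P) ≠ 0 := by
    intro h3
    exact hsep.aeval_derivative_ne_zero hroot h3
  choose! p hpF hpa hpv using fun x hx => h c h0 h1 x hx
  set d := P.natDegree + 1 with hd
  set g : Fin d → F := fun i => ⟨p (P.coeff i), hpF _ (P.coeff i).2⟩ with hg
  have hgv : ∀ i, (g i).1 c = (P.coeff i : ℂ) := fun i => hpv _ (P.coeff i).2
  obtain ⟨f, hf, h4⟩ := hG2 d g c x (fun i => hpa _ (P.coeff i).2) (by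
    simp only [hgv]
    rw [← hroot, Polynomial.aeval_eq_sum_range, Finset.sum_range]
    rfl) (by
    simp only [hgv]
    intro h5
    apply hder
    rw [← h5]
    conv_lhs => rw [P.as_sum_range_C_mul_X_pow]
    rw [Polynomial.derivative_sum, map_sum, Finset.sum_range]
    refine Finset.sum_congr rfl fun i _ => ?_
    rw [Polynomial.derivative_C_mul_X_pow, map_mul, map_pow, Polynomial.aeval_X, Polynomial.aeval_C, map_mul,
      map_natCast, mul_assoc]
    rfl)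
  exact ⟨f, Set.mem_iUnion.2 ⟨d, Set.mem_iUnion.2 ⟨g, hf⟩⟩, h4⟩

/-! ### exponentials and logarithms -/

/-- the two branches of the logarithm -/
noncomputable def br (i : Bool) (z : ℂ) : ℂ := if i then Complex.log z else Complex.log (-z) + Real.pi * Complex.I

lemma br_cov {z : ℂ} (hz : z ≠ 0) : ∃ i, AnalyticAt ℂ (br i) z ∧ br i z = Complex.log z := by
  by_cases h : z ∈ Complex.slitPlane
  · refine ⟨true, ?_, rfl⟩
    have : br true = Complex.log := by
      funext w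
      rfl
    rw [this]
    exact analyticAt_clog h
  · refine ⟨false, ?_, ?_⟩
    · have : br false = fun w => Complex.log (-w) + Real.pi * Complex.I := by
        funext w
        rfl
      rw [this]
      apply AnalyticAt.add _ analyticAt_const
      apply AnalyticAt.clog analyticAt_id.neg
      rw [Complex.mem_slitPlane_iff] at h ⊢
      push Not at h
      left
      rcases lt_or_eq_of_le h.1 with h1 | h1
      · simpa using h1
      · exact absurd (Complex.ext h1 h.2) hz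
    · show Complex.log (-z) + Real.pi * Complex.I = Complex.log z
      rw [Complex.mem_slitPlane_iff] at h
      push Not at h
      have h1 : z.re < 0 := by
        rcases lt_or_eq_of_le h.1 with h1 | h1
        · exact h1
        · exact absurd (Complex.ext h1 h.2) hz
      have e : z = ((z.re : ℝ) : ℂ) := Complex.ext rfl (by simpa using h.2)
      have h2 : Complex.arg z = Real.pi := by
        rw [e]
        exact Complex.arg_ofReal_of_neg h1
      have h3 : Complex.arg (-z) = 0 := by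
        rw [e, ← Complex.ofReal_neg]
        exact Complex.arg_ofReal_of_nonneg (by linarith)
      rw [Complex.log, Complex.log, h2, h3, norm_neg]
      push_cast
      ring

lemma log_ne {c : ℂ} (h0 : c ≠ 0) (h1 : c ≠ 1) : Complex.log c ≠ 0 := by
  intro h
  have := Complex.exp_log h0
  rw [h, Complex.exp_zero] at this
  exact h1 this.symm

lemma Cov.pow {A : ℂ → Set ℂ} (hA : Cov A) : Cov fun c => pw c '' A c := by
  obtain ⟨F, hF, h⟩ := hA
  refine ⟨(fun p : (ℂ → ℂ) × Bool => fun z => Complex.exp (p.1 z * br p.2 z)) '' (F ×ˢ Set.univ),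
    (hF.prod Set.countable_univ).image _, fun c h0 h1 x hx => ?_⟩
  obtain ⟨a, ha, rfl⟩ := hx
  obtain ⟨f, hf, hfa, hfv⟩ := h c h0 h1 a ha
  obtain ⟨i, hi, hiv⟩ := br_cov h0
  refine ⟨_, ⟨(f, i), ⟨hf, Set.mem_univ _⟩, rfl⟩, (hfa.mul hi).cexp, ?_⟩
  show Complex.exp (f c * br i c) = pw c a
  rw [hfv, hiv]
  rfl

lemma Cov.log {A : ℂ → Set ℂ} (hA : Cov A) : Cov fun c => {w | pw c w ∈ A c} := by
  obtain ⟨F, hF, h⟩ := hA
  refine ⟨(fun p : ((ℂ → ℂ) × Bool) × (Bool × ℤ) => fun z =>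
      (br p.1.2 (p.1.1 z) + p.2.2 * (2 * Real.pi * Complex.I)) / br p.2.1 z) '' ((F ×ˢ Set.univ) ×ˢ Set.univ),
    ((hF.prod Set.countable_univ).prod Set.countable_univ).image _, fun c h0 h1 w hw => ?_⟩
  obtain ⟨f, hf, hfa, hfv⟩ := h c h0 h1 _ hw
  obtain ⟨i, hi, hiv⟩ := br_cov h0
  have hy : f c ≠ 0 := by
    rw [hfv]
    exact Complex.exp_ne_zero _
  obtain ⟨j, hj, hjv⟩ := br_cov hy
  have h2 : Complex.exp (w * Complex.log c) = Complex.exp (Complex.log (f c)) := by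
    rw [Complex.exp_log hy, hfv]
    rfl
  obtain ⟨k, hk⟩ := Complex.exp_eq_exp_iff_exists_int.1 h2
  refine ⟨_, ⟨((f, j), (i, k)), ⟨⟨hf, Set.mem_univ _⟩, Set.mem_univ _⟩, rfl⟩, ?_, ?_⟩
  · apply AnalyticAt.div
    · apply AnalyticAt.add _ analyticAt_const
      exact AnalyticAt.comp (g := br j) (f := f) hj hfa
    · exact hi
    · show br i c ≠ 0
      rw [hiv]
      exact log_ne h0 h1
  · show (br j (f c) + k * (2 * Real.pi * Complex.I)) / br i c = w
    rw [hjv, hiv, ← hk]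
    exact mul_div_cancel_right₀ _ (log_ne h0 h1)

theorem cov_tower (n : ℕ) : Cov fun c => (tower c n : Set ℂ) := by
  induction n with
  | zero =>
    have : ((⊥ : Subfield ℂ) : Set ℂ).Countable := by
      have h1 : ((⊥ : Subfield ℂ) : Set ℂ) ⊆ Set.range ((↑) : ℚ → ℂ) := by
        have h2 : (⊥ : Subfield ℂ) ≤ (algebraMap ℚ ℂ).fieldRange := bot_le
        intro x hx
        obtain ⟨q, hq⟩ := h2 hx
        exact ⟨q, hq⟩
      exact (Set.countable_range _).mono h1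
    exact cov_const this
  | succ n ih => exact ((ih.union ih.pow).union ih.log).subfield.algebraic

theorem cov_EL : Cov EL := Cov.iUnion cov_tower

/-! ### countability -/

lemma countable_EL {c : ℂ} (h0 : c ≠ 0) (h1 : c ≠ 1) : (EL c).Countable := by
  obtain ⟨F, hF, h⟩ := cov_EL
  refine (hF.image fun f => f c).mono fun x hx => ?_
  obtain ⟨f, hf, -, hv⟩ := h c h0 h1 x hx
  exact ⟨f, hf, hv⟩

lemma countable_isolated (f : ℂ → ℂ) (a : ℂ) : {c : ℂ | f c = a ∧ ∀ᶠ z in 𝓝[≠] c, f z ≠ a}.Countable := by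
  obtain ⟨t, -, htc, hcov⟩ := TopologicalSpace.countable_cover_nhdsWithin
    (s := {c : ℂ | f c = a ∧ ∀ᶠ z in 𝓝[≠] c, f z ≠ a}) (f := fun c => {c}) (by
      rintro c ⟨-, hc⟩
      rw [eventually_nhdsWithin_iff] at hc
      rw [mem_nhdsWithin_iff_eventually]
      filter_upwards [hc] with z hz hz2
      by_contra hne
      exact hz hne hz2.1)
  refine htc.mono fun c hc => ?_
  obtain ⟨d, hd, hcd⟩ := Set.mem_iUnion₂.1 (hcov hc)
  rw [Set.mem_singleton_iff] at hcd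
  rwa [hcd]

lemma countable_values (f : ℂ → ℂ) : {a : ℂ | ∃ c, ∀ᶠ z in 𝓝 c, f z = a}.Countable := by
  have hd : Set.PairwiseDisjoint {a : ℂ | ∃ c, ∀ᶠ z in 𝓝 c, f z = a} (fun a => {c | ∀ᶠ z in 𝓝 c, f z = a}) := by
    intro a _ b _ hab
    rw [Function.onFun, Set.disjoint_left]
    intro c hc hc'
    exact hab (hc.self_of_nhds.symm.trans hc'.self_of_nhds)
  refine hd.countable_of_isOpen (fun a _ => ?_) (fun a ha => ha)
  rw [isOpen_iff_mem_nhds]
  intro c hc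
  exact hc.eventually_nhds

lemma mem_EL_self {a : ℂ} (h0 : a ≠ 0) : a ∈ EL a := by
  refine Set.mem_iUnion.2 ⟨1, ?_⟩
  show a ∈ (algebraicClosure (Subfield.closure ((tower a 0 : Set ℂ) ∪ pw a '' (tower a 0 : Set ℂ) ∪
      {w | pw a w ∈ tower a 0})) ℂ)
  rw [mem_algebraicClosure_iff]
  have h1 : a ∈ Subfield.closure ((tower a 0 : Set ℂ) ∪ pw a '' (tower a 0 : Set ℂ) ∪
      {w | pw a w ∈ tower a 0}) := by
    apply Subfield.subset_closure
    refine Or.inl (Or.inr ⟨1, one_mem _, ?_⟩)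
    unfold pw
    rw [one_mul, Complex.exp_log h0]
  exact isAlgebraic_algebraMap (⟨a, h1⟩ : Subfield.closure ((tower a 0 : Set ℂ) ∪ pw a '' (tower a 0 : Set ℂ) ∪
      {w | pw a w ∈ tower a 0}))

/-- For all `a` outside a countable set only countably many numbers lie in a tower that contains `a`. -/
theorem countable_common : ∃ Z : Set ℂ, Z.Countable ∧ ∀ a ∉ Z,
    {b : ℂ | ∃ c : ℂ, c ≠ 0 ∧ c ≠ 1 ∧ a ∈ EL c ∧ b ∈ EL c}.Countable := by
  obtain ⟨F, hF, h⟩ := cov_EL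
  refine ⟨⋃ f ∈ F, {a : ℂ | ∃ c, ∀ᶠ z in 𝓝 c, f z = a}, hF.biUnion fun f _ => countable_values f, ?_⟩
  intro a ha
  have hC : {c : ℂ | c ≠ 0 ∧ c ≠ 1 ∧ a ∈ EL c}.Countable := by
    refine (hF.biUnion fun f _ => countable_isolated f a).mono ?_
    rintro c ⟨h0, h1, hac⟩
    obtain ⟨f, hf, hfa, hfv⟩ := h c h0 h1 a hac
    refine Set.mem_iUnion₂.2 ⟨f, hf, hfv, ?_⟩
    rcases hfa.eventually_eq_or_eventually_ne (analyticAt_const (v := a)) with h2 | h2
    · have h3 : a ∈ ⋃ f ∈ F, {a : ℂ | ∃ c, ∀ᶠ z in 𝓝 c, f z = a} := Set.mem_iUnion₂.2 ⟨f, hf, ⟨c, h2⟩⟩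
      exact absurd h3 ha
    · exact h2
  refine (hC.biUnion fun c hc => countable_EL hc.1 hc.2.1).mono ?_
  rintro b ⟨c, h0, h1, hac, hbc⟩
  exact Set.mem_iUnion₂.2 ⟨c, ⟨h0, h1, hac⟩, hbc⟩

end Pool.Agent.R352.Towers
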