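import Mathlib

/-!
# Exponential-logarithmic towers: definitions
-/

set_option autoImplicit false

namespace Pool.Agent.R352.Towers

/-- `b ^ x = e ^ (x ln b)` with the principal value of `ln b` -/
noncomputable def pw (b x : ℂ) : ℂ := Complex.exp (x * Complex.log b)

/-- The fields `EL_n` of the tower with base `b`. -/
noncomputable def tower (b : ℂ) : ℕ → Subfield ℂ
  | 0 => ⊥
  | n + 1 => (algebraicClosure (Subfield.closure ((tower b n : Set ℂ) ∪ pw b '' (tower b n : Set ℂ) ∪
      {w | pw b w ∈ tower b n})) ℂ).toSubfield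

/-- The tower `EL^(b)`. -/
noncomputable def EL (b : ℂ) : Set ℂ := ⋃ n, (tower b n : Set ℂ)

end Pool.Agent.R352.Towers
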